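import Pool.Agent.Helper38.F5.Final

/-! MP_f1db85_nt, exponent `n = 5`, primes `p ≡ 1 (mod 5)`. -/

/-- the numerical condition, for all primes `p = 5 m + 1 < 211` -/
lemma Pool.Agent.Results.MP_f1db85_nt.QuinticPrimes.small (p m : ℕ) (hp : p.Prime)
    (hpm : p = 5 * m + 1) (hlt : p < 211) :
    ((¬ p ∣ Nat.fib m ∧ (p % 25 ≠ 16 ∨ ¬ ((4 * m).choose m) ^ m ≡ 1 [MOD p])) ∨
      (p ∣ Nat.fib m ∧ p % 25 ≠ 1 ∧ p % 25 ≠ 6 ∧ ¬ ((4 * m).choose m) ^ m ≡ 1 [MOD p])) := by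
  have hm : m < 42 := by omega
  subst hpm
  rw [Nat.choose_eq_descFactorial_div_factorial]
  revert hp
  interval_cases m <;> intro hp <;> first | (exfalso; revert hp; norm_num; done) | decide +kernel

lemma Pool.Agent.Results.MP_f1db85_nt.QuinticPrimes.main (p m : ℕ) (hp : p.Prime)
    (hpm : p = 5 * m + 1)
    (hC : (¬ p ∣ Nat.fib m ∧ (p % 25 ≠ 16 ∨ ¬ ((4 * m).choose m) ^ m ≡ 1 [MOD p])) ∨
      (p ∣ Nat.fib m ∧ p % 25 ≠ 1 ∧ p % 25 ≠ 6 ∧ ¬ ((4 * m).choose m) ^ m ≡ 1 [MOD p]))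
    (A B C D : ℕ) (hA : 0 < A) (hB : 0 < B) (h1 : A + B = C) (h2 : A * B * C = D ^ 5)
    (hg : Nat.gcd (Nat.gcd A B) C = p) : False := by
  have hm : (p - 1) / 5 = m := by omega
  have hD : 0 < D := by
    rcases Nat.eq_zero_or_pos D with rfl | h
    · exfalso
      rw [zero_pow (by norm_num)] at h2
      have : 0 < A * B * C := Nat.mul_pos (Nat.mul_pos hA hB) (by omega)
      omega
    · exact h
  refine Pool.Agent.Helper38.F5.final hp (by omega) ?_ A B C D hA hB hD h1 h2 hg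
  rw [hm]
  exact hC

/-- Let `p = 5 m + 1` be prime, and suppose that either
* `p ∤ F_m` (Fibonacci number), and `p ≢ 16 (mod 25)` or `C(4m, m) ^ m ≢ 1 (mod p)`; or
* `p ∣ F_m`, `p ≢ 1, 6 (mod 25)` and `C(4m, m) ^ m ≢ 1 (mod p)`.
Then `A + B = C`, `A B C = D ^ 5`, `gcd(A, B, C) = p` has no solution in positive integers.
In particular this holds for all primes `p ≡ 1 (mod 5)` below `211`. -/
theorem Pool.Agent.Results.MP_f1db85_nt.QuinticPrimes.result :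
    (∀ p m : ℕ, p.Prime → p = 5 * m + 1 →
      ((¬ p ∣ Nat.fib m ∧ (p % 25 ≠ 16 ∨ ¬ ((4 * m).choose m) ^ m ≡ 1 [MOD p])) ∨
        (p ∣ Nat.fib m ∧ p % 25 ≠ 1 ∧ p % 25 ≠ 6 ∧ ¬ ((4 * m).choose m) ^ m ≡ 1 [MOD p])) →
      ∀ A B C D : ℕ, 0 < A → 0 < B → A + B = C → A * B * C = D ^ 5 →
        Nat.gcd (Nat.gcd A B) C = p → False) ∧
    (∀ p : ℕ, p.Prime → p % 5 = 1 → p < 211 →
      ∀ A B C D : ℕ, 0 < A → 0 < B → A + B = C → A * B * C = D ^ 5 →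
        Nat.gcd (Nat.gcd A B) C = p → False) := by
  refine ⟨Pool.Agent.Results.MP_f1db85_nt.QuinticPrimes.main, ?_⟩
  intro p hp hp5 hlt
  have hpm : p = 5 * (p / 5) + 1 := by omega
  exact Pool.Agent.Results.MP_f1db85_nt.QuinticPrimes.main p (p / 5) hp hpm
    (Pool.Agent.Results.MP_f1db85_nt.QuinticPrimes.small p (p / 5) hp hpm hlt)
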