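import Pool.Agent.Helper38.REG.Main

/-! MP_f1db85_nt, all regular prime exponents `n ≥ 5`. -/

open Finset

/-- `n` is regular: `n` does not divide the class number of `ℚ(ζ_n)`, and `n` divides none of the
numerators of `B_2, B_4, …, B_(n-3)` (by Kummer the two conditions are equivalent) -/
def Pool.Agent.Results.MP_f1db85_nt.RegularExponents.Regular (n : ℕ) : Prop :=
  ¬ n ∣ NumberField.classNumber (CyclotomicField n ℚ) ∧
    ∀ k : ℕ, 1 ≤ k → 2 * k ≤ n - 3 → ¬ (n : ℤ) ∣ (bernoulli (2 * k)).num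

/-- some `1 - v`, `v` of order `n`, is not an `n`-th power in some finite field of
characteristic `p` -/
def Pool.Agent.Results.MP_f1db85_nt.RegularExponents.E1 (n p : ℕ) : Prop :=
  ∃ (F : Type) (_ : Field F) (_ : Finite F) (_ : CharP F p) (v : F),
    IsPrimitiveRoot v n ∧ ∀ a : F, a ^ n ≠ 1 - v

/-- some `(1 + v) / (1 - v)`, `v` of order `n`, is not an `n`-th power in some finite field of
characteristic `p` -/
def Pool.Agent.Results.MP_f1db85_nt.RegularExponents.E2 (n p : ℕ) : Prop :=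
  ∃ (F : Type) (_ : Field F) (_ : Finite F) (_ : CharP F p) (v : F),
    IsPrimitiveRoot v n ∧ ∀ a : F, a ^ n ≠ (1 + v) / (1 - v)

/-- `((1 - v) (1 - 1/v)) ^ m` is not the same for all `v` of order `n` in `F_p` -/
def Pool.Agent.Results.MP_f1db85_nt.RegularExponents.C1 (n p m : ℕ) [Fact p.Prime] : Prop :=
  ∃ v w : ZMod p, IsPrimitiveRoot v n ∧ IsPrimitiveRoot w n ∧
    ((1 - v) * (1 - v⁻¹)) ^ m ≠ ((1 - w) * (1 - w⁻¹)) ^ m

/-- `((1 + v) / (1 - v)) ^ m` is not the same for all `v` of order `n` in `F_p` -/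
def Pool.Agent.Results.MP_f1db85_nt.RegularExponents.C2 (n p m : ℕ) [Fact p.Prime] : Prop :=
  ∃ v w : ZMod p, IsPrimitiveRoot v n ∧ IsPrimitiveRoot w n ∧
    ((1 + v) / (1 - v)) ^ m ≠ ((1 + w) / (1 - w)) ^ m

/-- logarithmic derivative `g' / g` over `ℤ/n` -/
noncomputable def Pool.Agent.Results.MP_f1db85_nt.RegularExponents.logd (n : ℕ) [Fact n.Prime]
    (g : PowerSeries (ZMod n)) : PowerSeries (ZMod n) :=
  PowerSeries.derivative (ZMod n) g * g⁻¹

/-- for every `w` of order `n` in `F_p` with index function `f` (`w ^ f(x) = x ^ m`) and every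
`2 ≤ q < n` with `q ^ n + (n + 1 - q) ^ n ≡ p ^ (n - 3) (mod n ^ 2)`, some odd coefficient of
`3 G'/G + (∑ c^(-r)) H'/H` is nonzero -/
def Pool.Agent.Results.MP_f1db85_nt.RegularExponents.C3 (n p m : ℕ) [Fact n.Prime]
    [Fact p.Prime] : Prop :=
  ∀ (w : ZMod p) (f : ZMod p → ZMod n), IsPrimitiveRoot w n →
    (∀ x, x ≠ 0 → w ^ (f x).val = x ^ m) → ∀ q : ℕ, 2 ≤ q → q < n →
      q ^ n + (n + 1 - q) ^ n ≡ p ^ (n - 3) [MOD n ^ 2] →
      ∃ r, Odd r ∧ 3 ≤ r ∧ r ≤ n - 2 ∧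
        3 * PowerSeries.coeff (r - 1) (Pool.Agent.Results.MP_f1db85_nt.RegularExponents.logd n
          (PowerSeries.mk fun k => if k = 0 then -1 else
            (∑ x ∈ (univ.erase (0 : ZMod p)).erase 1, f (x * (1 - x)) ^ k) *
              ((k.factorial : ℕ) : ZMod n)⁻¹)) +
          (∑ c ∈ Icc 1 ((n - 1) / 2), ((c : ZMod n)⁻¹) ^ r) *
            PowerSeries.coeff (r - 1) (Pool.Agent.Results.MP_f1db85_nt.RegularExponents.logd n
              (PowerSeries.mk fun k => if k = 0 then 1 else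
                (q : ZMod n) * ((k.factorial : ℕ) : ZMod n)⁻¹)) ≠ 0

/-- Let `n ≥ 5` be a regular prime and `p` a prime such that
(a) `p = n`, or
(b) `p ≢ 1 (mod n)`, `p ^ (n - 1) ≢ 1 (mod n ^ 2)` or `E1`, and `(2 p ^ 3) ^ (n - 1) ≢ 1 (mod n ^ 2)`
or `E2`, or
(c) `p = n m + 1`, `C1`, `C2` or `(2 p ^ 3) ^ (n - 1) ≢ 1 (mod n ^ 2)`, and `C3`.
Then `A + B = C`, `A B C = D ^ n`, `gcd(A, B, C) = p` has no solution in positive integers. -/
theorem Pool.Agent.Results.MP_f1db85_nt.RegularExponents.result :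
    ∀ (n p : ℕ) [Fact n.Prime] [Fact p.Prime], 5 ≤ n →
      Pool.Agent.Results.MP_f1db85_nt.RegularExponents.Regular n →
      (p = n ∨
        (p % n ≠ 1 ∧
          (¬ p ^ (n - 1) ≡ 1 [MOD n ^ 2] ∨
            Pool.Agent.Results.MP_f1db85_nt.RegularExponents.E1 n p) ∧
          (¬ (2 * p ^ 3) ^ (n - 1) ≡ 1 [MOD n ^ 2] ∨
            Pool.Agent.Results.MP_f1db85_nt.RegularExponents.E2 n p)) ∨
        ∃ m : ℕ, p = n * m + 1 ∧
          Pool.Agent.Results.MP_f1db85_nt.RegularExponents.C1 n p m ∧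
          (Pool.Agent.Results.MP_f1db85_nt.RegularExponents.C2 n p m ∨
            ¬ (2 * p ^ 3) ^ (n - 1) ≡ 1 [MOD n ^ 2]) ∧
          Pool.Agent.Results.MP_f1db85_nt.RegularExponents.C3 n p m) →
      ∀ A B C D : ℕ, 0 < A → 0 < B → A + B = C → A * B * C = D ^ n →
        Nat.gcd (Nat.gcd A B) C ≠ p := by
  intro n p hn hp h5 hreg hC A B C D hA hB h1 h2 hg
  exact Pool.Agent.Helper38.REG.final n p h5 hreg.1 hreg.2 hC A B C D hA hB h1 h2 hg
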